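import Pool.Agent.Q61.JS.Stm

/-! Job JS-4 of project JS: the normalised Hausdorff measure is Lebesgue measure. -/

set_option autoImplicit false

namespace Pool.Agent.Q38.JS

open MeasureTheory Measure Set Metric Pool.Agent.Q61.JS
open scoped ENNReal NNReal

/-- **JS-4** -/
theorem hn : S_HN := by
  intro n
  have h1 : IsAddHaarMeasure (μH[(n : ℝ)] : Measure (E n)) := by
    have h := isAddHaarMeasure_hausdorffMeasure (E := E n)
    rwa [finrank_euclideanSpace_fin] at h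
  obtain ⟨c, hc0, hct, hc⟩ : ∃ c : ℝ≥0∞, c ≠ 0 ∧ c ≠ ⊤ ∧
      (volume : Measure (E n)) = c • (μH[(n : ℝ)] : Measure (E n)) := by
    refine ⟨(addHaarScalarFactor (volume : Measure (E n)) (μH[(n : ℝ)] : Measure (E n)) : ℝ≥0∞),
      ?_, ENNReal.coe_ne_top, ?_⟩
    · rw [Ne, ENNReal.coe_eq_zero]
      exact (addHaarScalarFactor_pos_of_isAddHaarMeasure _ _).ne'
    · exact isAddLeftInvariant_eq_smul _ _
  have hb0 : (μH[(n : ℝ)] : Measure (E n)) (ball (0 : E n) 1) ≠ 0 :=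
    (measure_ball_pos _ _ one_pos).ne'
  have hbt : (μH[(n : ℝ)] : Measure (E n)) (ball (0 : E n) 1) ≠ ⊤ := measure_ball_lt_top.ne
  have h3 : Pool.Agent.Q61.JS.hc n = c := by
    unfold Pool.Agent.Q61.JS.hc
    rw [hc, Measure.smul_apply, smul_eq_mul, ENNReal.mul_div_cancel_right hb0 hbt]
  rw [h3]
  exact ⟨hc.symm, hc0, hct⟩

end Pool.Agent.Q38.JS
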