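import Pool.Agent.Q61.JS.Stm

/-! Job JS-14 of project JS: measurability of the mollification. -/

set_option autoImplicit false

namespace Pool.Agent.Q38.JS

open MeasureTheory Measure Set Metric Pool.Agent.Q61.JS
open scoped ENNReal NNReal

/-- **JS-14** -/
theorem mm : S_MM := by
  intro N d u η ε hu hη hε
  have h1 : QuasiMeasurePreserving (fun z : E N => ε • z) volume volume := by
    refine ⟨measurable_const_smul ε, ?_⟩
    rw [map_addHaar_smul volume hε.ne']
    exact Measure.smul_absolutelyContinuous
  have h2 : QuasiMeasurePreserving (fun p : E N × E N => p.1 - p.2) (volume.prod volume) volume :=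
    quasiMeasurePreserving_sub volume volume
  have h3 : QuasiMeasurePreserving (fun p : E N × E N => (p.1, ε • p.2)) (volume.prod volume)
      (volume.prod volume) := MeasureTheory.QuasiMeasurePreserving.prodMap (QuasiMeasurePreserving.id volume) h1
  have h4 : QuasiMeasurePreserving (fun p : E N × E N => p.1 - ε • p.2) (volume.prod volume)
      volume := h2.comp h3
  have h5 : AEStronglyMeasurable (fun p : E N × E N => η p.2 • u (p.1 - ε • p.2))
      (volume.prod volume) :=
    (hη.aestronglyMeasurable.comp_snd).smul (hu.comp_quasiMeasurePreserving h4)
  exact h5.integral_prod_right'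

end Pool.Agent.Q38.JS
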