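import Pool.Agent.Q61.JS.Stm

/-! Job JS-8 of project JS: Tonelli. -/

set_option autoImplicit false

namespace Pool.Agent.Q38.JS

open MeasureTheory Measure Set Metric Pool.Agent.Q61.JS
open scoped ENNReal NNReal

/-- **JS-8** -/
theorem mult : S_MULT := by
  intro N μ r A f hμ hf hA
  obtain ⟨g, hg, hfg⟩ := hf
  have h1 : ∀ k : E N, ∫⁻ y in ball k r, f y = ∫⁻ y in ball k r, g y := fun k =>
    lintegral_congr_ae (ae_restrict_of_ae hfg)
  simp only [h1]
  rw [lintegral_congr_ae hfg]
  have hS : MeasurableSet {p : E N × E N | dist p.2 p.1 < r} :=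
    measurableSet_lt (measurable_snd.dist measurable_fst) measurable_const
  have h2 : ∀ k : E N, ∫⁻ y in ball k r, g y =
      ∫⁻ y, ({p : E N × E N | dist p.2 p.1 < r}).indicator (fun p => g p.2) (k, y) := by
    intro k
    rw [← lintegral_indicator measurableSet_ball]
    rfl
  simp only [h2]
  have h4 : AEMeasurable (Function.uncurry fun k y : E N =>
      ({p : E N × E N | dist p.2 p.1 < r}).indicator (fun p => g p.2) (k, y)) (μ.prod volume) :=
    ((hg.comp measurable_snd).indicator hS).aemeasurable
  rw [lintegral_lintegral_swap h4]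
  calc ∫⁻ y, ∫⁻ k, ({p : E N × E N | dist p.2 p.1 < r}).indicator (fun p => g p.2) (k, y) ∂μ
      ≤ ∫⁻ y, A * g y := by
        refine lintegral_mono fun y => ?_
        have h3 : ∀ k : E N, ({p : E N × E N | dist p.2 p.1 < r}).indicator (fun p => g p.2) (k, y)
            = (ball y r).indicator (fun _ => g y) k := by
          intro k
          simp only [indicator, mem_setOf_eq, mem_ball]
          rw [dist_comm]
        simp only [h3]
        rw [lintegral_indicator_const measurableSet_ball, mul_comm]
        exact mul_le_mul_left (hA y) _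
    _ = A * ∫⁻ y, g y := lintegral_const_mul _ hg

end Pool.Agent.Q38.JS
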