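import Pool.Agent.Q61.JS.Stm

/-! Job JS-2 of project JS: from the countable family of radii to all radii. -/

set_option autoImplicit false

namespace Pool.Agent.Q38.JS

open MeasureTheory Measure Set Metric Pool.Agent.Q61.JS
open scoped ENNReal NNReal

/-- **JS-2** -/
theorem rad : S_RAD := by
  intro N d u a b ν x m δ hδ hx r hr hrm
  have hm : (0 : ℝ) < (m : ℝ) + 1 := by positivity
  have h1 : (m : ℝ) + 1 ≤ 1 / r := by
    rw [le_div_iff₀ hr]
    rw [le_div_iff₀ hm] at hrm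
    linarith
  have h2 : m + 1 ≤ ⌊1 / r⌋₊ := by
    rw [Nat.le_floor_iff (by positivity)]
    push_cast
    exact h1
  obtain ⟨k, hk⟩ : ∃ k, ⌊1 / r⌋₊ = k + 1 := ⟨⌊1 / r⌋₊ - 1, by omega⟩
  have hmk : m ≤ k := by omega
  have h3 : (k : ℝ) + 1 ≤ 1 / r := by
    have := Nat.floor_le (a := 1 / r) (by positivity)
    rw [hk] at this
    push_cast at this
    exact this
  have h4 : 1 / r < (k : ℝ) + 2 := by
    have := Nat.lt_floor_add_one (1 / r)
    rw [hk] at this
    push_cast at this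
    linarith
  have hk1 : (0 : ℝ) < (k : ℝ) + 1 := by positivity
  have h5 : r ≤ 1 / ((k : ℝ) + 1) := by
    rw [le_div_iff₀ hk1]
    rw [le_div_iff₀ hr] at h3
    linarith
  have h6 : 1 / ((k : ℝ) + 1) ≤ 2 * r := by
    rw [div_le_iff₀ hk1]
    rw [div_lt_iff₀ hr] at h4
    have : 0 ≤ (k : ℝ) * r := by positivity
    nlinarith
  refine (lintegral_mono_set (ball_subset_ball h5)).trans ((hx k hmk).trans ?_)
  refine ENNReal.ofReal_le_ofReal ?_
  have h7 : (1 / ((k : ℝ) + 1)) ^ N ≤ (2 * r) ^ N :=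
    pow_le_pow_left₀ (by positivity) h6 N
  have h8 : 0 ≤ δ * ‖a - b‖ := by positivity
  calc δ * ‖a - b‖ * (1 / ((k : ℝ) + 1)) ^ N ≤ δ * ‖a - b‖ * (2 * r) ^ N :=
        mul_le_mul_of_nonneg_left h7 h8
    _ = 2 ^ N * δ * ‖a - b‖ * r ^ N := by rw [mul_pow]; ring

end Pool.Agent.Q38.JS
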